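import Pool.Agent.T9h98.NK.SpecS

/-!
# Piece CRO: type X with `g = 1/2` everywhere gives the cross-polytope
-/

set_option autoImplicit false

open Set
open scoped RealInnerProductSpace

namespace Pool.Agent.T9h12.NK

open Pool.Agent.T9h98.DC Pool.Agent.T9h44.NK Pool.Agent.T9h98.NK

/-- `2 m` unit vectors, closed under `-`, orthogonal if not equal or opposite -/
theorem pm_basis {m : ℕ} (hm : 0 < m) (U : Finset (E m)) (hneg : ∀ x ∈ U, -x ∈ U)
    (h1 : ∀ x ∈ U, ‖x‖ = 1) (h0 : ∀ x ∈ U, ∀ y ∈ U, x ≠ y → x ≠ -y → ⟪x, y⟫ = 0)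
    (hc : 2 * m ≤ U.card) :
    ∃ b : OrthonormalBasis (Fin m) ℝ (E m), ∀ x, x ∈ U ↔ ∃ i, x = b i ∨ x = -b i := by
  classical
  -- a maximal subset without opposite vectors
  obtain ⟨R, hR, hmax⟩ := Finset.exists_max_image
    (U.powerset.filter (fun R => ∀ x ∈ R, -x ∉ R)) Finset.card ⟨∅, by simp⟩
  rw [Finset.mem_filter, Finset.mem_powerset] at hR
  have hcov : ∀ x ∈ U, x ∈ R ∨ -x ∈ R := by
    intro x hx
    by_contra hcon
    push Not at hcon
    have hx0 : x ≠ -x := by
      intro h
      have h2 : x = 0 := by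
        have h4 : (2 : ℝ) • x = 0 := by
          rw [two_smul]
          nth_rewrite 2 [h]
          exact add_neg_cancel x
        rcases smul_eq_zero.1 h4 with h5 | h5
        · norm_num at h5
        · exact h5
      have h3 := h1 x hx
      rw [h2, norm_zero] at h3
      norm_num at h3
    have hmem : insert x R ∈ U.powerset.filter (fun R => ∀ x ∈ R, -x ∉ R) := by
      rw [Finset.mem_filter, Finset.mem_powerset]
      refine ⟨Finset.insert_subset hx hR.1, ?_⟩
      intro z hz hz'
      rw [Finset.mem_insert] at hz hz'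
      rcases hz with rfl | hz
      · rcases hz' with h | h
        · exact hx0 h.symm
        · exact hcon.2 h
      · rcases hz' with h | h
        · exact hcon.2 (by rw [← h, neg_neg]; exact hz)
        · exact hR.2 z hz h
    have := hmax _ hmem
    rw [Finset.card_insert_of_notMem hcon.1] at this
    omega
  have hor : Orthonormal ℝ (fun x : R => (x : E m)) := by
    constructor
    · intro x; exact h1 _ (hR.1 x.2)
    · intro x y hxy
      refine h0 _ (hR.1 x.2) _ (hR.1 y.2) (fun h => hxy (Subtype.ext h)) ?_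
      intro h
      exact hR.2 y y.2 (by rw [← h]; exact x.2)
  have hle : R.card ≤ m := by
    have := hor.linearIndependent.fintype_card_le_finrank
    simpa using this
  have hge : m ≤ R.card := by
    have hsub : U ⊆ R ∪ R.image (fun x => -x) := by
      intro x hx
      rw [Finset.mem_union, Finset.mem_image]
      rcases hcov x hx with h | h
      · exact Or.inl h
      · exact Or.inr ⟨-x, h, neg_neg x⟩
    have h2 := (Finset.card_le_card hsub).trans (Finset.card_union_le _ _)
    have h3 := Finset.card_image_le (s := R) (f := fun x => -x)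
    omega
  set φ := (R.equivFinOfCardEq (le_antisymm hle hge)).symm with hφ
  have hb : Orthonormal ℝ (fun i => (φ i : E m)) := hor.comp φ φ.injective
  have : Nonempty (Fin m) := ⟨⟨0, hm⟩⟩
  obtain ⟨b, hbe⟩ : ∃ b : OrthonormalBasis (Fin m) ℝ (E m), ∀ i, b i = (φ i : E m) := by
    refine ⟨(basisOfOrthonormalOfCardEqFinrank hb (by simp)).toOrthonormalBasis
      (by simpa using hb), ?_⟩
    intro i
    simp
  refine ⟨b, fun x => ⟨fun hx => ?_, ?_⟩⟩
  · rcases hcov x hx with h | h
    · refine ⟨φ.symm ⟨x, h⟩, Or.inl ?_⟩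
      rw [hbe]; simp
    · refine ⟨φ.symm ⟨-x, h⟩, Or.inr ?_⟩
      rw [hbe]; simp
  · rintro ⟨i, rfl | rfl⟩
    · rw [hbe]; exact hR.1 (φ i).2
    · rw [hbe]; exact hneg _ (hR.1 (φ i).2)

theorem iexp {m : ℕ} (s Y : E m) : ⟪s - Y, s - Y⟫ = ⟪s, s⟫ - 2 * ⟪Y, s⟫ + ⟪Y, Y⟫ := by
  rw [inner_sub_left, inner_sub_right, inner_sub_right, real_inner_comm Y s]
  ring

theorem ipp {m : ℕ} (X Y s : E m) (a : ℝ) :
    ⟪X - a • s, Y - a • s⟫ = ⟪X, Y⟫ - a * ⟪X, s⟫ - a * ⟪Y, s⟫ + a ^ 2 * ⟪s, s⟫ := by
  rw [inner_sub_left, inner_sub_right, inner_sub_right, real_inner_smul_left,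
    real_inner_smul_right, real_inner_smul_left, real_inner_smul_right, real_inner_comm Y s]
  ring

theorem ips {m : ℕ} (Y s : E m) (a b : ℝ) :
    ⟪a • s, Y - b • s⟫ = a * ⟪Y, s⟫ - a * b * ⟪s, s⟫ := by
  rw [inner_sub_right, real_inner_smul_left, real_inner_smul_left, real_inner_smul_right,
    real_inner_comm Y s]
  ring

theorem isp {m : ℕ} (X s : E m) (a b : ℝ) :
    ⟪X - a • s, b • s⟫ = b * ⟪X, s⟫ - a * b * ⟪s, s⟫ := by
  rw [real_inner_comm, ips]
  ring

theorem cro : S_FACES → S_CONN → S_REL → S_CRO := by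
  classical
  intro hF hC hR D P e hD hP hL
  obtain ⟨f1, f2, f3, f4, f5, f6, f7, f8, f9, f10⟩ := hF (D + 1) P hP.1
  obtain ⟨hPP, v0, hv0⟩ := f5 (hP.2.mono interior_subset)
  have he : 0 < e := (hL v0 hv0).epos
  have he2 : 0 < e ^ 2 := by positivity
  have hU : Uni P (1 / 2) e := by
    refine ⟨he, by norm_num, fun v y h => (hL v (f9 v y h).1).len y h, fun v y y' h => ?_⟩
    obtain ⟨s, hs⟩ := (hL v (f9 v y h.1).1).opp
    obtain ⟨-, -, -, h4, h5⟩ := hs y h.1
    exact (h5 y' h.2.1 h.2.2.1.symm (fun h6 => h4 (h6 ▸ h))).2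
  have hRel : ∀ v w y, Cor P v w y → Cor P w v y := by
    intro v w y h
    have := (hR D P (1 / 2) e (by norm_num) hP hU v w y h).1
    simpa using this
  obtain ⟨s, hs⟩ := (hL v0 hv0).opp
  have hfin : {y | Adj P v0 y}.Finite := Set.finite_of_ncard_ne_zero (by
    rw [(hL v0 hv0).num]; omega)
  -- inner products
  have n1 : ∀ y, Adj P v0 y → ⟪y - v0, y - v0⟫ = e ^ 2 := by
    intro y hy
    rw [real_inner_self_eq_norm_sq, (hL v0 hv0).len y hy]
  have n2 : ∀ y, Adj P v0 y → ⟪y - v0, s⟫ = e ^ 2 := by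
    intro y hy
    have h1 := (hs y hy).2.2.1
    rw [inner_sub_right, n1 y hy] at h1
    linarith
  obtain ⟨y0, hy0⟩ : ∃ y, Adj P v0 y := by
    have : {y | Adj P v0 y}.Nonempty := by
      apply Set.nonempty_of_ncard_ne_zero
      rw [(hL v0 hv0).num]; omega
    exact this
  have n3 : ⟪s, s⟫ = 2 * e ^ 2 := by
    have h1 := n1 _ (hs y0 hy0).1
    have h2 : v0 + s - (y0 - v0) - v0 = s - (y0 - v0) := by abel
    rw [h2, iexp, n2 y0 hy0, n1 y0 hy0] at h1
    linarith
  have n4 : ∀ y y', Adj P v0 y → Adj P v0 y' → y' ≠ y → y' ≠ v0 + s - (y - v0) →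
      ⟪y - v0, y' - v0⟫ = e ^ 2 / 2 := by
    intro y y' hy hy' h1 h2
    rw [((hs y hy).2.2.2.2 y' hy' h1 h2).2]
    ring
  -- the vertex opposite to `v0`
  have hT : ∀ y, Adj P v0 y → Adj P y (v0 + s) := by
    intro y hy
    obtain ⟨y', hy', hne1, hne2⟩ : ∃ y', Adj P v0 y' ∧ y' ≠ y ∧ y' ≠ v0 + s - (y - v0) := by
      by_contra hcon
      push Not at hcon
      have hsub : {y | Adj P v0 y} ⊆ {y, v0 + s - (y - v0)} := by
        intro z hz
        by_cases h : z = y
        · exact Or.inl h
        · exact Or.inr (hcon z hz h)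
      have h1 := Set.ncard_le_ncard hsub (by simp)
      have h2 := Set.ncard_insert_le y {v0 + s - (y - v0)}
      rw [(hL v0 hv0).num] at h1
      rw [Set.ncard_singleton] at h2
      omega
    have hyv := (f9 _ _ hy).2.1
    obtain ⟨s', hs'⟩ := (hL y hyv).opp
    have a1 : Adj P y y' := (hRel _ _ _ ((hs y hy).2.2.2.2 y' hy' hne1 hne2).1).2.1
    have hop := (hs y' hy').1
    have hne3 : v0 + s - (y' - v0) ≠ y := by
      intro h
      apply hne2
      rw [← h]; abel
    have hne4 : v0 + s - (y' - v0) ≠ v0 + s - (y - v0) := by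
      intro h
      apply hne1
      have h1 := sub_right_injective h
      exact sub_left_injective h1
    have a2 : Adj P y (v0 + s - (y' - v0)) :=
      (hRel _ _ _ ((hs y hy).2.2.2.2 _ hop hne3 hne4).1).2.1
    have h0 : ⟪y' - y, v0 + s - (y' - v0) - y⟫ = 0 := by
      have e1 : y' - y = (y' - v0) - (y - v0) := by abel
      have e2 : v0 + s - (y' - v0) - y = s - (y' - v0) - (y - v0) := by abel
      rw [e1, e2]
      simp only [inner_sub_left, inner_sub_right]
      rw [← inner_sub_left (x := y'), ← inner_sub_left (x := y)]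
      have g1 := n1 y hy
      have g2 := n1 y' hy'
      have g3 := n2 y hy
      have g4 := n2 y' hy'
      simp only [inner_sub_left, inner_sub_right] at g1 g2 g3 g4 ⊢
      have c1 := real_inner_comm y y'
      have c2 := real_inner_comm y v0
      have c3 := real_inner_comm y' v0
      linarith
    have hop2 : v0 + s - (y' - v0) = y + s' - (y' - y) := by
      by_contra hne5
      have h5 := ((hs' y' a1).2.2.2.2 _ a2 (hs y' hy').2.1 hne5).2
      rw [h0] at h5
      linarith
    have h6 := (hs' v0 (f9 _ _ hy).2.2.1).1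
    have h7 : y + s' - (v0 - y) = v0 + s := by
      have h8 : s' = v0 + s - (y' - v0) + (y' - y) - y := by rw [hop2]; abel
      rw [h8]; abel
    rwa [h7] at h6
  have hs0 : s ≠ 0 := by
    intro h
    rw [h, inner_zero_left] at n3
    linarith
  have htN : ¬ Adj P v0 (v0 + s) := by
    intro h
    have := n1 _ h
    rw [add_sub_cancel_left, n3] at this
    linarith
  have hv0N : ¬ Adj P v0 v0 := fun h => h.1 rfl
  have hvt : v0 ≠ v0 + s := by
    intro h
    exact hs0 (by simpa using h.symm)
  have htv := (f9 _ _ (hT y0 hy0)).2.1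
  -- the set of vertices
  have hA := hC D P hP (insert v0 (insert (v0 + s) {y | Adj P v0 y}))
    ⟨v0, mem_insert _ _, hv0⟩ (by
    intro v hv w hvv hw
    rcases hv with rfl | rfl | hv
    · exact Or.inr (Or.inr hw)
    · -- the neighbours of `v0 + s`
      have hfinT : {y | Adj P (v0 + s) y}.Finite := Set.finite_of_ncard_ne_zero (by
        rw [(hL _ htv).num]; omega)
      have heq := Set.eq_of_subset_of_ncard_le (s := {y | Adj P v0 y})
        (t := {y | Adj P (v0 + s) y}) (fun y hy => (f9 _ _ (hT y hy)).2.2.1)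
        (by rw [(hL _ htv).num, (hL v0 hv0).num]) hfinT
      refine Or.inr (Or.inr ?_)
      rw [heq]; exact hw
    · have hv' : Adj P v0 v := hv
      have hfinV : {y | Adj P v y}.Finite := Set.finite_of_ncard_ne_zero (by
        rw [(hL _ hvv).num]; omega)
      have hsub : insert v0 (insert (v0 + s) ({y | Adj P v0 y} \ {v, v0 + s - (v - v0)})) ⊆
          {y | Adj P v y} := by
        intro z hz
        rcases hz with rfl | rfl | hz
        · exact (f9 _ _ hv').2.2.1
        · exact hT v hv'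
        · have h1 : z ≠ v := fun h => hz.2 (Or.inl h)
          have h2 : z ≠ v0 + s - (v - v0) := fun h => hz.2 (Or.inr h)
          exact (hRel _ _ _ ((hs v hv').2.2.2.2 z hz.1 h1 h2).1).2.1
      have hpair : ({v, v0 + s - (v - v0)} : Set (E (D + 1))).ncard = 2 :=
        Set.ncard_pair (hs v hv').2.1.symm
      have hdiff : ({y | Adj P v0 y} \ {v, v0 + s - (v - v0)}).ncard = 2 * D - 2 := by
        rw [Set.ncard_sdiff (by
          intro z hz
          rcases hz with rfl | rfl
          · exact hv'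
          · exact (hs v hv').1) (by simp), hpair, (hL v0 hv0).num]
      have hcardB : (insert v0 (insert (v0 + s)
          ({y | Adj P v0 y} \ {v, v0 + s - (v - v0)}))).ncard = 2 * D := by
        have k1 : v0 ∉ insert (v0 + s) ({y | Adj P v0 y} \ {v, v0 + s - (v - v0)}) := by
          rintro (h | h)
          · exact hvt h
          · exact hv0N h.1
        have k2 : v0 + s ∉ ({y | Adj P v0 y} \ {v, v0 + s - (v - v0)}) := fun h => htN h.1
        have k3 : ({y | Adj P v0 y} \ {v, v0 + s - (v - v0)}).Finite :=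
          hfin.subset (fun z hz => hz.1)
        rw [Set.ncard_insert_of_notMem k1 (k3.insert _), Set.ncard_insert_of_notMem k2 k3, hdiff]
        omega
      have heq := Set.eq_of_subset_of_ncard_le hsub (by rw [(hL _ hvv).num, hcardB]) hfinV
      have hw' : w ∈ {y | Adj P v y} := hw
      rw [← heq] at hw'
      rcases hw' with rfl | rfl | hw'
      · exact Or.inl rfl
      · exact Or.inr (Or.inl rfl)
      · exact Or.inr (Or.inr hw'.1))
  have hset : {v | Vx P v ∧ v ∈ P} = insert v0 (insert (v0 + s) {y | Adj P v0 y}) := by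
    ext v
    constructor
    · rintro ⟨h1, _⟩
      exact hA v h1
    · intro hv
      have h1 : Vx P v := by
        rcases hv with rfl | rfl | hv
        · exact hv0
        · exact htv
        · exact (f9 _ _ hv).2.1
      exact ⟨h1, h1.2.subset (mem_singleton _)⟩
  have hPh := (f1 P hPP).2
  rw [hset] at hPh
  -- the basis
  set c : E (D + 1) := v0 + (1 / 2 : ℝ) • s with hc
  set r : ℝ := Real.sqrt (e ^ 2 / 2) with hr
  have hr0 : 0 < r := Real.sqrt_pos.2 (by positivity)
  have hr2 : r ^ 2 = e ^ 2 / 2 := Real.sq_sqrt (by positivity)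
  set AF : Finset (E (D + 1)) := insert v0 (insert (v0 + s) hfin.toFinset) with hAF
  have hmemAF : ∀ x, x ∈ AF ↔ x = v0 ∨ x = v0 + s ∨ Adj P v0 x := by
    intro x
    rw [hAF, Finset.mem_insert, Finset.mem_insert, Set.Finite.mem_toFinset]
    rfl
  have hcardAF : AF.card = 2 * (D + 1) := by
    rw [hAF, Finset.card_insert_of_notMem, Finset.card_insert_of_notMem,
      ← Set.ncard_eq_toFinset_card _ hfin, (hL v0 hv0).num]
    · ring
    · rw [Set.Finite.mem_toFinset]; exact htN
    · rw [Finset.mem_insert, Set.Finite.mem_toFinset]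
      rintro (h | h)
      · exact hvt h
      · exact hv0N h
  have d1 : v0 - c = -((1 / 2 : ℝ) • s) := by rw [hc]; abel
  have d2 : v0 + s - c = (1 / 2 : ℝ) • s := by
    rw [hc]
    have : s = (1 / 2 : ℝ) • s + (1 / 2 : ℝ) • s := by rw [← add_smul]; norm_num
    nth_rewrite 1 [this]
    abel
  have d3 : ∀ y : E (D + 1), y - c = (y - v0) - (1 / 2 : ℝ) • s := by
    intro y; rw [hc]; abel
  have hnegA : ∀ x ∈ AF, ∃ x' ∈ AF, x' - c = -(x - c) := by
    intro x hx
    rcases (hmemAF x).1 hx with h | h | h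
    · rw [h]
      exact ⟨v0 + s, (hmemAF _).2 (Or.inr (Or.inl rfl)), by rw [d1, d2, neg_neg]⟩
    · rw [h]
      exact ⟨v0, (hmemAF _).2 (Or.inl rfl), by rw [d1, d2]⟩
    · refine ⟨v0 + s - (x - v0), (hmemAF _).2 (Or.inr (Or.inr (hs x h).1)), ?_⟩
      have h1 : v0 + s - (x - v0) - c = (v0 + s - c) - (x - v0) := by abel
      rw [h1, d2, d3 x]; abel
  have hnormA : ∀ x ∈ AF, ⟪x - c, x - c⟫ = r ^ 2 := by
    intro x hx
    rw [hr2]
    rcases (hmemAF x).1 hx with h | h | h
    · rw [h, d1, inner_neg_neg, real_inner_smul_left, real_inner_smul_right, n3]; ring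
    · rw [h, d2, real_inner_smul_left, real_inner_smul_right, n3]; ring
    · rw [d3 x, ipp, n1 x h, n2 x h, n3]
      ring
  have horA : ∀ x ∈ AF, ∀ y ∈ AF, x ≠ y → x - c ≠ -(y - c) → ⟪x - c, y - c⟫ = 0 := by
    intro x hx y hy hne hne2
    rcases (hmemAF x).1 hx with h | h | h
    · rcases (hmemAF y).1 hy with h' | h' | h'
      · exact absurd (h.trans h'.symm) hne
      · exact absurd (by rw [h, h', d1, d2]) hne2
      · rw [h, d1, d3 y, inner_neg_left, ips, n2 y h', n3]
        ring
    · rcases (hmemAF y).1 hy with h' | h' | h'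
      · exact absurd (by rw [h, h', d1, d2, neg_neg]) hne2
      · exact absurd (h.trans h'.symm) hne
      · rw [h, d2, d3 y, ips, n2 y h', n3]
        ring
    · rcases (hmemAF y).1 hy with h' | h' | h'
      · rw [h', d1, d3 x, inner_neg_right, isp, n2 x h, n3]
        ring
      · rw [h', d2, d3 x, isp, n2 x h, n3]
        ring
      · have h1 : y ≠ v0 + s - (x - v0) := by
          intro h2
          apply hne2
          rw [h2]
          have h3 : v0 + s - (x - v0) - c = (v0 + s - c) - (x - v0) := by abel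
          rw [h3, d2, d3 x]; abel
        rw [d3 x, d3 y, ipp, n2 x h, n2 y h', n3, n4 x y h h' hne.symm h1]
        ring
  have hqinj : Function.Injective (fun x : E (D + 1) => (1 / r) • (x - c)) := by
    intro x y hxy
    have h1 : (1 / r) ≠ 0 := by positivity
    have h2 := smul_right_injective (E (D + 1)) h1 hxy
    exact sub_left_injective h2
  obtain ⟨b, hb⟩ := pm_basis (m := D + 1) (by omega)
    (AF.image (fun x => (1 / r) • (x - c)))
    (by
      intro z hz
      obtain ⟨x, hx, rfl⟩ := Finset.mem_image.1 hz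
      obtain ⟨x', hx', h⟩ := hnegA x hx
      refine Finset.mem_image.2 ⟨x', hx', ?_⟩
      rw [h, smul_neg])
    (by
      intro z hz
      obtain ⟨x, hx, rfl⟩ := Finset.mem_image.1 hz
      have h1 := hnormA x hx
      rw [real_inner_self_eq_norm_sq] at h1
      have h2 : ‖x - c‖ = r := by
        have := (sq_eq_sq₀ (norm_nonneg _) hr0.le).1 h1
        exact this
      rw [norm_smul, h2, Real.norm_eq_abs, abs_of_pos (by positivity)]
      field_simp)
    (by
      intro z hz z' hz' hne hne2
      obtain ⟨x, hx, rfl⟩ := Finset.mem_image.1 hz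
      obtain ⟨x', hx', rfl⟩ := Finset.mem_image.1 hz'
      rw [real_inner_smul_left, real_inner_smul_right, horA x hx x' hx'
        (fun h => hne (by rw [h])) (fun h => hne2 (by rw [h, smul_neg]))]
      ring)
    (by rw [Finset.card_image_of_injective _ hqinj, hcardAF])
  refine ⟨c, r, b, hr0, ?_⟩
  rw [hPh]
  congr 1
  ext x
  have h1 : x ∈ insert v0 (insert (v0 + s) {y | Adj P v0 y}) ↔
      (1 / r) • (x - c) ∈ AF.image (fun x => (1 / r) • (x - c)) := by
    rw [hqinj.mem_finset_image (s := AF) (a := x), hmemAF]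
    rfl
  rw [h1, hb]
  have h2 : ∀ z : E (D + 1), (1 / r) • (x - c) = z ↔ x = c + r • z := by
    intro z
    constructor
    · rintro rfl
      rw [smul_smul, mul_one_div_cancel hr0.ne', one_smul]; abel
    · rintro rfl
      rw [add_sub_cancel_left, smul_smul, one_div_mul_cancel hr0.ne', one_smul]
  constructor
  · rintro ⟨i, h | h⟩
    · exact ⟨i, Or.inl ((h2 _).1 h)⟩
    · refine ⟨i, Or.inr ?_⟩
      rw [(h2 _).1 h, smul_neg]; abel
  · rintro ⟨i, h | h⟩
    · exact ⟨i, Or.inl ((h2 _).2 h)⟩
    · refine ⟨i, Or.inr ((h2 _).2 ?_)⟩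
      rw [h, smul_neg]; abel

end Pool.Agent.T9h12.NK
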