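import Pool.Agent.T9h98.NK.SpecS

/-!
# Piece CUB: type S with right angles everywhere gives the cube
-/

set_option autoImplicit false

open Set
open scoped RealInnerProductSpace

namespace Pool.Agent.T9h12.NK

open Pool.Agent.T9h98.DC Pool.Agent.T9h44.NK Pool.Agent.T9h98.NK

section cube

variable {m : ℕ} (v0 : E m) (e : ℝ) (b : OrthonormalBasis (Fin m) ℝ (E m))

/-- the affine map `t ↦ v0 + e ∑ t_i b_i` -/
noncomputable def fm : (Fin m → ℝ) →ᵃ[ℝ] E m :=
  AffineMap.mk' (fun t => v0 + e • ∑ i, t i • b i)
    (e • Fintype.linearCombination ℝ (fun i => b i)) 0 (by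
      intro t
      simp [Fintype.linearCombination_apply, add_comm])

theorem fm_apply (t : Fin m → ℝ) : fm v0 e b t = v0 + e • ∑ i, t i • b i := rfl

/-- the vertices -/
noncomputable def av (S : Finset (Fin m)) : E m := v0 + e • ∑ i ∈ S, b i

theorem image_pairs :
    fm v0 e b '' (univ.pi fun _ => ({0, 1} : Set ℝ)) = range (av v0 e b) := by
  classical
  ext x
  constructor
  · rintro ⟨t, ht, rfl⟩
    refine ⟨Finset.univ.filter fun i => t i = 1, ?_⟩
    rw [fm_apply, av, Finset.sum_filter]
    congr 2
    refine Finset.sum_congr rfl fun i _ => ?_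
    rcases ht i (mem_univ i) with h | h
    · rw [h]; simp
    · rw [mem_singleton_iff] at h
      rw [h]; simp
  · rintro ⟨S, rfl⟩
    refine ⟨fun i => if i ∈ S then 1 else 0, ?_, ?_⟩
    · intro i _
      by_cases h : i ∈ S
      · right; simp [h]
      · left; simp [h]
    · rw [fm_apply, av]
      congr 2
      simp

theorem inner_sum (t : Fin m → ℝ) (i : Fin m) : ⟪∑ j, t j • b j, b i⟫ = t i := by
  rw [real_inner_comm]
  exact b.orthonormal.inner_right_fintype t i

theorem inner_sum1 (i : Fin m) : ⟪∑ j, b j, b i⟫ = 1 := by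
  have := inner_sum b (fun _ => 1) i
  simpa using this

theorem image_cube (he : 0 < e) :
    fm v0 e b '' (univ.pi fun _ => Icc (0 : ℝ) 1) =
      {x | ∀ i, |⟪x - (v0 + (e / 2) • ∑ i, b i), b i⟫| ≤ e / 2} := by
  ext x
  constructor
  · rintro ⟨t, ht, rfl⟩ i
    have h := ht i (mem_univ i)
    have h1 : ⟪fm v0 e b t - (v0 + (e / 2) • ∑ i, b i), b i⟫ = e * t i - e / 2 := by
      rw [fm_apply, add_sub_add_left_eq_sub, inner_sub_left, real_inner_smul_left,
        real_inner_smul_left, inner_sum, inner_sum1]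
      ring
    rw [h1, abs_le]
    constructor <;> nlinarith [h.1, h.2]
  · intro hx
    refine ⟨fun i => ⟪b i, x - v0⟫ / e, ?_, ?_⟩
    · intro i _
      have h := hx i
      have h1 : ⟪x - (v0 + (e / 2) • ∑ i, b i), b i⟫ = ⟪b i, x - v0⟫ - e / 2 := by
        rw [← sub_sub, inner_sub_left, real_inner_smul_left, inner_sum1, mul_one,
          real_inner_comm]
      rw [h1, abs_le] at h
      constructor
      · apply div_nonneg _ he.le
        linarith [h.1]
      · rw [div_le_one he]
        linarith [h.2]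
    · rw [fm_apply]
      have h2 : e • ∑ i, (⟪b i, x - v0⟫ / e) • b i = ∑ i, ⟪b i, x - v0⟫ • b i := by
        rw [Finset.smul_sum]
        refine Finset.sum_congr rfl fun i _ => ?_
        rw [smul_smul]
        congr 1
        field_simp
      rw [h2, b.sum_repr']
      abel

theorem cube_hull (he : 0 < e) :
    convexHull ℝ (range (av v0 e b)) =
      {x | ∀ i, |⟪x - (v0 + (e / 2) • ∑ i, b i), b i⟫| ≤ e / 2} := by
  rw [← image_pairs, ← image_cube v0 e b he, ← AffineMap.image_convexHull, convexHull_pi]
  congr 2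
  funext i
  rw [convexHull_pair, segment_eq_Icc zero_le_one]

end cube

section

variable {m : ℕ} (v0 : E m) (e : ℝ) (b : OrthonormalBasis (Fin m) ℝ (E m))

/-- the sign -/
def sg (S : Finset (Fin m)) (i : Fin m) : ℝ := if i ∈ S then -1 else 1

/-- the neighbours -/
noncomputable def nbr (S : Finset (Fin m)) (i : Fin m) : E m := av v0 e b S + (sg S i * e) • b i

theorem av_insert {S : Finset (Fin m)} {k : Fin m} (hk : k ∉ S) :
    av v0 e b (insert k S) = av v0 e b S + e • b k := by
  unfold av
  rw [Finset.sum_insert hk, smul_add]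
  abel

theorem nbr_inj (he : 0 < e) (S : Finset (Fin m)) : Function.Injective (nbr v0 e b S) := by
  intro i j hij
  by_contra hne
  unfold nbr at hij
  have h1 := add_left_cancel hij
  have h2 : ⟪(sg S i * e) • b i, b i⟫ = ⟪(sg S j * e) • b j, b i⟫ := by rw [h1]
  rw [real_inner_smul_left, real_inner_smul_left, b.orthonormal.2 (Ne.symm hne),
    real_inner_self_eq_norm_sq, b.orthonormal.1 i] at h2
  unfold sg at h2
  split_ifs at h2 <;> simp at h2 <;> linarith

theorem nbr_mem (S : Finset (Fin m)) (i : Fin m) : ∃ S', av v0 e b S' = nbr v0 e b S i := by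
  classical
  by_cases h : i ∈ S
  · refine ⟨S.erase i, ?_⟩
    have h1 := av_insert v0 e b (S := S.erase i) (k := i) (Finset.notMem_erase i S)
    rw [Finset.insert_erase h] at h1
    unfold nbr sg
    rw [if_pos h, h1, neg_one_mul, neg_smul]
    abel
  · refine ⟨insert i S, ?_⟩
    rw [av_insert v0 e b h]
    unfold nbr sg
    rw [if_neg h, one_mul]

end

theorem cub : S_FACES → S_CONN → S_REL → S_CUB := by
  classical
  intro hF hC hR D P e hD hP hL
  obtain ⟨f1, f2, f3, f4, f5, f6, f7, f8, f9, f10⟩ := hF (D + 1) P hP.1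
  obtain ⟨hPP, v0, hv0⟩ := f5 (hP.2.mono interior_subset)
  have he : 0 < e := (hL v0 hv0).epos
  have hU : Uni P 0 e := ⟨he, zero_lt_one, fun v y h => (hL v (f9 v y h).1).len y h,
    fun v y y' h => ((hL v (f9 v y h.1).1).cor y y' h.1 h.2.1 h.2.2.1).2⟩
  have hRel : ∀ v w y, Cor P v w y → Cor P w v (y + (w - v)) := by
    intro v w y h
    have := (hR D P 0 e (by norm_num) hP hU v w y h).1
    simpa using this
  -- the neighbours of `v0`
  have hfin : {y | Adj P v0 y}.Finite := Set.finite_of_ncard_ne_zero (by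
    rw [(hL v0 hv0).num]; omega)
  have hcard : hfin.toFinset.card = D + 1 := by
    rw [← Set.ncard_eq_toFinset_card _ hfin, (hL v0 hv0).num]
  set φ := (hfin.toFinset.equivFinOfCardEq hcard).symm with hφ
  have hy : ∀ i, Adj P v0 (φ i : E (D + 1)) := fun i => by
    have := (φ i).2
    rwa [Set.Finite.mem_toFinset] at this
  have hyinj : ∀ i j, i ≠ j → (φ i : E (D + 1)) ≠ (φ j : E (D + 1)) := fun i j h h2 =>
    h (φ.injective (Subtype.ext h2))
  have hb : Orthonormal ℝ (fun i => (1 / e) • ((φ i : E (D + 1)) - v0)) := by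
    constructor
    · intro i
      rw [norm_smul, (hL v0 hv0).len _ (hy i), Real.norm_eq_abs, abs_of_pos (by positivity)]
      field_simp
    · intro i j hij
      rw [real_inner_smul_left, real_inner_smul_right,
        ((hL v0 hv0).cor _ _ (hy i) (hy j) (hyinj i j hij)).2]
      simp
  obtain ⟨b, hbe⟩ : ∃ b : OrthonormalBasis (Fin (D + 1)) ℝ (E (D + 1)),
      ∀ i, b i = (1 / e) • ((φ i : E (D + 1)) - v0) := by
    refine ⟨(basisOfOrthonormalOfCardEqFinrank hb (by simp)).toOrthonormalBasis
      (by simpa using hb), ?_⟩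
    intro i
    simp
  have hey : ∀ i, (φ i : E (D + 1)) = v0 + e • b i := by
    intro i
    rw [hbe, smul_smul, mul_one_div_cancel he.ne', one_smul]
    abel
  -- the induction
  have hQ : ∀ S : Finset (Fin (D + 1)), Vx P (av v0 e b S) ∧
      ∀ i, Adj P (av v0 e b S) (nbr v0 e b S i) := by
    intro S
    induction S using Finset.induction_on with
    | empty =>
      have h0 : av v0 e b ∅ = v0 := by unfold av; simp
      refine ⟨by rw [h0]; exact hv0, fun i => ?_⟩
      have h1 : nbr v0 e b ∅ i = (φ i : E (D + 1)) := by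
        unfold nbr sg
        rw [h0, hey i]
        simp
      rw [h0, h1]
      exact hy i
    | insert k S hk ih =>
      obtain ⟨ih1, ih2⟩ := ih
      have hw : nbr v0 e b S k = av v0 e b (insert k S) := by
        rw [av_insert v0 e b hk]
        unfold nbr sg
        rw [if_neg hk, one_mul]
      have hadj := ih2 k
      rw [hw] at hadj
      have hwv := (f9 _ _ hadj).2.1
      refine ⟨hwv, fun j => ?_⟩
      by_cases hj : j = k
      · subst hj
        have h2 : nbr v0 e b (insert j S) j = av v0 e b S := by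
          unfold nbr sg
          rw [av_insert v0 e b hk, if_pos (Finset.mem_insert_self j S), neg_one_mul, neg_smul]
          abel
        rw [h2]
        exact (f9 _ _ hadj).2.2.1
      · have hne : av v0 e b (insert k S) ≠ nbr v0 e b S j := by
          rw [← hw]
          exact fun h => hj (nbr_inj v0 e b he S h).symm
        have hcor := ((hL _ ih1).cor _ _ hadj (ih2 j) hne).1
        have hcor2 := (hRel _ _ _ hcor).2.1
        have h3 : nbr v0 e b S j + (av v0 e b (insert k S) - av v0 e b S) =
            nbr v0 e b (insert k S) j := by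
          have h4 : sg (insert k S) j = sg S j := by
            unfold sg
            simp [hj]
          unfold nbr
          rw [h4]
          abel
        rwa [h3] at hcor2
  have hN : ∀ S : Finset (Fin (D + 1)), ∀ w, Adj P (av v0 e b S) w →
      ∃ i, w = nbr v0 e b S i := by
    intro S w hw
    have hn := (hL _ (hQ S).1).num
    have hfinS : {y | Adj P (av v0 e b S) y}.Finite := Set.finite_of_ncard_ne_zero (by
      rw [hn]; omega)
    have hsub : range (nbr v0 e b S) ⊆ {y | Adj P (av v0 e b S) y} := by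
      rintro _ ⟨i, rfl⟩
      exact (hQ S).2 i
    have hrc : (range (nbr v0 e b S)).ncard = D + 1 := by
      rw [← image_univ, Set.ncard_image_of_injective _ (nbr_inj v0 e b he S), Set.ncard_univ]
      simp
    have heq := Set.eq_of_subset_of_ncard_le hsub (by rw [hn, hrc]) hfinS
    have : w ∈ range (nbr v0 e b S) := by rw [heq]; exact hw
    obtain ⟨i, hi⟩ := this
    exact ⟨i, hi.symm⟩
  have hA := hC D P hP (range (av v0 e b)) ⟨av v0 e b ∅, ⟨∅, rfl⟩, (hQ ∅).1⟩ (by
    rintro _ ⟨S, rfl⟩ w _ hw
    obtain ⟨i, rfl⟩ := hN S w hw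
    obtain ⟨S', hS'⟩ := nbr_mem v0 e b S i
    exact ⟨S', hS'⟩)
  have hset : {v | Vx P v ∧ v ∈ P} = range (av v0 e b) := by
    ext v
    constructor
    · rintro ⟨h1, _⟩
      exact hA v h1
    · rintro ⟨S, rfl⟩
      exact ⟨(hQ S).1, (hQ S).1.2.subset (mem_singleton _)⟩
  refine ⟨v0 + (e / 2) • ∑ i, b i, e / 2, b, by positivity, ?_⟩
  have hPh := (f1 P hPP).2
  rw [hset, cube_hull v0 e b he] at hPh
  exact hPh

end Pool.Agent.T9h12.NK
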